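import Mathlib

/-!
Definitions for MP_13da68_co (translational tiles in a cube).
-/

namespace Pool.Agent.Work.MP_13da68_co

/-- The finite set `S ⊆ ℤ^d` tiles `ℤ^d` by translations: there is a set `T` such that every
`x : ℤ^d` can be written in exactly one way as `x = s + t` with `s ∈ S` and `t ∈ T`. -/
def Tiles (d : ℕ) (S : Finset (Fin d → ℤ)) : Prop :=
  ∃ T : Set (Fin d → ℤ), ∀ x : Fin d → ℤ,
    ∃! p : (Fin d → ℤ) × (Fin d → ℤ), p.1 ∈ S ∧ p.2 ∈ T ∧ p.1 + p.2 = x

/-- The cube `[n]^d = {1, …, n}^d` inside `ℤ^d`. -/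
noncomputable def cube (n d : ℕ) : Finset (Fin d → ℤ) :=
  Fintype.piFinset fun _ : Fin d => Finset.Icc (1 : ℤ) n

/-- `t_{n,d}`: the number of subsets `S` of the cube `[n]^d` that tile `ℤ^d` by translations. -/
noncomputable def tileCount (n d : ℕ) : ℕ :=
  {S : Finset (Fin d → ℤ) | S ⊆ cube n d ∧ Tiles d S}.ncard

end Pool.Agent.Work.MP_13da68_co
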