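import Pool.Agent.Work.MP_13da68_co.Upper

/-!
Lower bound for the number of tiles in the three dimensional cube (Q2 of MP_13da68_co).
-/

open Finset

namespace Pool.Agent.Work.MP_13da68_co

section red

variable {n : ℕ} [NeZero n]

/-- the grid `{0,…,n-1}^2` -/
abbrev Grid (n : ℕ) := Fin n × Fin n

/-- reduction of a point of `ℤ^2` into the grid modulo the lattice `⟨(n,0),(a,n)⟩` -/
def redP (n : ℕ) [NeZero n] (a x1 x2 : ℤ) : Grid n :=
  (⟨((x1 - (x2 / n) * a) % n).toNat, by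
      have hn : (0 : ℤ) < n := by exact_mod_cast Nat.pos_of_ne_zero (NeZero.ne n)
      have := Int.emod_lt_of_pos (x1 - (x2 / n) * a) hn
      have := Int.emod_nonneg (x1 - (x2 / n) * a) hn.ne'
      omega⟩,
   ⟨(x2 % n).toNat, by
      have hn : (0 : ℤ) < n := by exact_mod_cast Nat.pos_of_ne_zero (NeZero.ne n)
      have := Int.emod_lt_of_pos x2 hn
      have := Int.emod_nonneg x2 hn.ne'
      omega⟩)

lemma npos : (0 : ℤ) < n := by exact_mod_cast Nat.pos_of_ne_zero (NeZero.ne n)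

lemma redP_fst (a x1 x2 : ℤ) : (((redP n a x1 x2).1 : ℕ) : ℤ) = (x1 - (x2 / n) * a) % n := by
  have := Int.emod_nonneg (x1 - (x2 / n) * a) (npos (n := n)).ne'
  simp only [redP]
  omega

lemma redP_snd (a x1 x2 : ℤ) : (((redP n a x1 x2).2 : ℕ) : ℤ) = x2 % n := by
  have := Int.emod_nonneg x2 (npos (n := n)).ne'
  simp only [redP]
  omega

lemma redP_spec (a x1 x2 : ℤ) : ∃ i j : ℤ,
    x1 = ((redP n a x1 x2).1 : ℕ) + i * n + j * a ∧ x2 = ((redP n a x1 x2).2 : ℕ) + j * n := by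
  refine ⟨(x1 - (x2 / n) * a) / n, x2 / n, ?_, ?_⟩
  · rw [redP_fst]
    have := Int.emod_add_mul_ediv (x1 - (x2 / n) * a) n
    linarith
  · rw [redP_snd]
    have := Int.emod_add_mul_ediv x2 n
    linarith

lemma redP_unique {a x1 x2 i j : ℤ} {p : Grid n} (h1 : x1 = (p.1 : ℕ) + i * n + j * a)
    (h2 : x2 = (p.2 : ℕ) + j * n) : redP n a x1 x2 = p := by
  have hp2 : (((p.2 : ℕ)) : ℤ) < n := by exact_mod_cast p.2.2
  have hp1 : (((p.1 : ℕ)) : ℤ) < n := by exact_mod_cast p.1.2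
  have hj : x2 / n = j := by
    rw [h2, Int.add_mul_ediv_right _ _ (npos (n := n)).ne',
      Int.ediv_eq_zero_of_lt (Int.natCast_nonneg _) hp2, zero_add]
  have e2 : (((redP n a x1 x2).2 : ℕ) : ℤ) = (p.2 : ℕ) := by
    rw [redP_snd, h2, Int.add_mul_emod_self_right, Int.emod_eq_of_lt (Int.natCast_nonneg _) hp2]
  have e1 : (((redP n a x1 x2).1 : ℕ) : ℤ) = (p.1 : ℕ) := by
    rw [redP_fst, hj, h1]
    rw [show ((p.1 : ℕ) : ℤ) + i * n + j * a - j * a = (p.1 : ℕ) + i * n by ring,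
      Int.add_mul_emod_self_right, Int.emod_eq_of_lt (Int.natCast_nonneg _) hp1]
  ext
  · exact_mod_cast e1
  · exact_mod_cast e2

/-- the shift of the grid by `(w1,w2)` modulo the lattice `⟨(n,0),(a,n)⟩` -/
def sig (n : ℕ) [NeZero n] (a w1 w2 : ℤ) (p : Grid n) : Grid n :=
  redP n a ((p.1 : ℕ) + w1) ((p.2 : ℕ) + w2)

lemma sig_spec (a w1 w2 : ℤ) (p : Grid n) : ∃ i j : ℤ,
    (((p.1 : ℕ)) : ℤ) + w1 = ((sig n a w1 w2 p).1 : ℕ) + i * n + j * a ∧
    (((p.2 : ℕ)) : ℤ) + w2 = ((sig n a w1 w2 p).2 : ℕ) + j * n :=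
  redP_spec _ _ _

lemma sig_iter_spec (a w1 w2 : ℤ) (k : ℕ) (p : Grid n) : ∃ i j : ℤ,
    (((p.1 : ℕ)) : ℤ) + k * w1 = (((sig n a w1 w2)^[k] p).1 : ℕ) + i * n + j * a ∧
    (((p.2 : ℕ)) : ℤ) + k * w2 = (((sig n a w1 w2)^[k] p).2 : ℕ) + j * n := by
  induction k with
  | zero => exact ⟨0, 0, by simp, by simp⟩
  | succ k ih =>
    obtain ⟨i, j, h1, h2⟩ := ih
    obtain ⟨i', j', h1', h2'⟩ := sig_spec a w1 w2 ((sig n a w1 w2)^[k] p)
    refine ⟨i + i', j + j', ?_, ?_⟩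
    · rw [Function.iterate_succ_apply']
      push_cast
      linarith
    · rw [Function.iterate_succ_apply']
      push_cast
      linarith

lemma sig_injective (a w1 w2 : ℤ) : Function.Injective (sig n a w1 w2) := by
  intro p p' h
  obtain ⟨i, j, h1, h2⟩ := sig_spec a w1 w2 p
  obtain ⟨i', j', h1', h2'⟩ := sig_spec a w1 w2 p'
  rw [← h] at h1' h2'
  have e1 : redP n a ((p.1 : ℕ) : ℤ) ((p.2 : ℕ) : ℤ) = p :=
    redP_unique (i := 0) (j := 0) (by ring) (by ring)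
  have e2 : redP n a ((p.1 : ℕ) : ℤ) ((p.2 : ℕ) : ℤ) = p' :=
    redP_unique (i := i - i') (j := j - j') (by linarith) (by linarith)
  exact e1.symm.trans e2

end red

/-- the lattice generated by `(n,0,0)`, `(a,n,0)`, `(w1,w2,t)` -/
def Lat (n t : ℕ) (a w1 w2 : ℤ) : Set (Fin 3 → ℤ) :=
  {v | ∃ i j k : ℤ, v 0 = i * n + j * a + k * w1 ∧ v 1 = j * n + k * w2 ∧ v 2 = k * t}

lemma Lat_sub {n t : ℕ} {a w1 w2 : ℤ} {u v : Fin 3 → ℤ} (hu : u ∈ Lat n t a w1 w2)
    (hv : v ∈ Lat n t a w1 w2) : u - v ∈ Lat n t a w1 w2 := by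
  obtain ⟨i, j, k, h0, h1, h2⟩ := hu
  obtain ⟨i', j', k', h0', h1', h2'⟩ := hv
  refine ⟨i - i', j - j', k - k', ?_, ?_, ?_⟩
  · rw [Pi.sub_apply, h0, h0']; ring
  · rw [Pi.sub_apply, h1, h1']; ring
  · rw [Pi.sub_apply, h2, h2']; ring

lemma Lat_add {n t : ℕ} {a w1 w2 : ℤ} {u v : Fin 3 → ℤ} (hu : u ∈ Lat n t a w1 w2)
    (hv : v ∈ Lat n t a w1 w2) : u + v ∈ Lat n t a w1 w2 := by
  obtain ⟨i, j, k, h0, h1, h2⟩ := hu
  obtain ⟨i', j', k', h0', h1', h2'⟩ := hv
  refine ⟨i + i', j + j', k + k', ?_, ?_, ?_⟩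
  · rw [Pi.add_apply, h0, h0']; ring
  · rw [Pi.add_apply, h1, h1']; ring
  · rw [Pi.add_apply, h2, h2']; ring

section tile

variable {n t : ℕ} [NeZero n] [NeZero t]

/-- the `k`-th point of the class `(q,p)` -/
def pt (n t : ℕ) [NeZero n] (a w1 w2 : ℤ) (q : Fin t) (p : Grid n) (k : ℕ) : Fin 3 → ℤ :=
  ![(((sig n a w1 w2)^[k] p).1 : ℕ) + 1, (((sig n a w1 w2)^[k] p).2 : ℕ) + 1,
    (q : ℕ) + k * t + 1]

omit [NeZero t] in
lemma pt_apply_zero (a w1 w2 : ℤ) (q : Fin t) (p : Grid n) (k : ℕ) :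
    pt n t a w1 w2 q p k 0 = (((sig n a w1 w2)^[k] p).1 : ℕ) + 1 := rfl

omit [NeZero t] in
lemma pt_apply_one (a w1 w2 : ℤ) (q : Fin t) (p : Grid n) (k : ℕ) :
    pt n t a w1 w2 q p k 1 = (((sig n a w1 w2)^[k] p).2 : ℕ) + 1 := rfl

omit [NeZero t] in
lemma pt_apply_two (a w1 w2 : ℤ) (q : Fin t) (p : Grid n) (k : ℕ) :
    pt n t a w1 w2 q p k 2 = (q : ℕ) + k * t + 1 := rfl

omit [NeZero t] in
lemma pt_sub_mem (a w1 w2 : ℤ) (q : Fin t) (p : Grid n) (k : ℕ) :
    pt n t a w1 w2 q p k - pt n t a w1 w2 q p 0 ∈ Lat n t a w1 w2 := by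
  obtain ⟨i, j, h1, h2⟩ := sig_iter_spec a w1 w2 k p
  refine ⟨-i, -j, k, ?_, ?_, ?_⟩
  · rw [Pi.sub_apply, pt_apply_zero, pt_apply_zero, Function.iterate_zero, id]
    linarith
  · rw [Pi.sub_apply, pt_apply_one, pt_apply_one, Function.iterate_zero, id]
    linarith
  · rw [Pi.sub_apply, pt_apply_two, pt_apply_two]
    push_cast
    ring

/-- every point is congruent to exactly one class -/
lemma class_exists (a w1 w2 : ℤ) (x : Fin 3 → ℤ) :
    ∃ (q : Fin t) (p : Grid n), x - pt n t a w1 w2 q p 0 ∈ Lat n t a w1 w2 := by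
  have ht : (0 : ℤ) < t := by exact_mod_cast Nat.pos_of_ne_zero (NeZero.ne t)
  set k := (x 2 - 1) / t with hk
  set q0 := (x 2 - 1) % t with hq0
  have hq1 : 0 ≤ q0 := Int.emod_nonneg _ ht.ne'
  have hq2 : q0 < t := Int.emod_lt_of_pos _ ht
  have hq3 : x 2 - 1 = q0 + k * t := by
    have := Int.emod_add_mul_ediv (x 2 - 1) t
    linarith
  obtain ⟨i, j, h1, h2⟩ := redP_spec (n := n) a (x 0 - 1 - k * w1) (x 1 - 1 - k * w2)
  refine ⟨⟨q0.toNat, by omega⟩, redP n a (x 0 - 1 - k * w1) (x 1 - 1 - k * w2), i, j, k, ?_, ?_, ?_⟩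
  · rw [Pi.sub_apply, pt_apply_zero, Function.iterate_zero, id]
    linarith
  · rw [Pi.sub_apply, pt_apply_one, Function.iterate_zero, id]
    linarith
  · have : ((q0.toNat : ℕ) : ℤ) = q0 := Int.toNat_of_nonneg hq1
    rw [Pi.sub_apply, pt_apply_two]
    simp only [this]
    push_cast
    linarith

lemma class_unique {a w1 w2 : ℤ} {q q' : Fin t} {p p' : Grid n}
    (h : pt n t a w1 w2 q p 0 - pt n t a w1 w2 q' p' 0 ∈ Lat n t a w1 w2) : q = q' ∧ p = p' := by
  have ht : (0 : ℤ) < t := by exact_mod_cast Nat.pos_of_ne_zero (NeZero.ne t)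
  obtain ⟨i, j, k, h0, h1, h2⟩ := h
  rw [Pi.sub_apply, pt_apply_zero, pt_apply_zero, Function.iterate_zero, id, id] at h0
  rw [Pi.sub_apply, pt_apply_one, pt_apply_one, Function.iterate_zero, id, id] at h1
  rw [Pi.sub_apply, pt_apply_two, pt_apply_two, Nat.cast_zero, zero_mul, add_zero, add_zero] at h2
  have hk : k = 0 := by
    have hq : (((q : ℕ)) : ℤ) < t := by exact_mod_cast q.2
    have hq' : (((q' : ℕ)) : ℤ) < t := by exact_mod_cast q'.2
    have a1 : k * t < 1 * t := by rw [← h2]; omega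
    have a2 : (-1) * t < k * t := by rw [← h2]; omega
    have b1 := lt_of_mul_lt_mul_right a1 ht.le
    have b2 := lt_of_mul_lt_mul_right a2 ht.le
    omega
  subst hk
  refine ⟨?_, ?_⟩
  · ext; omega
  · have e1 : redP n a ((p.1 : ℕ) : ℤ) ((p.2 : ℕ) : ℤ) = p :=
      redP_unique (i := 0) (j := 0) (by ring) (by ring)
    have e2 : redP n a ((p.1 : ℕ) : ℤ) ((p.2 : ℕ) : ℤ) = p' :=
      redP_unique (i := i) (j := j) (by linarith) (by linarith)
    exact e1.symm.trans e2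

/-- the transversal attached to `f` -/
def tr (n t : ℕ) [NeZero n] (a w1 w2 : ℤ) (f : Fin t → Grid n → Fin 3) : Finset (Fin 3 → ℤ) :=
  Finset.univ.image (fun qp : Fin t × Grid n => pt n t a w1 w2 qp.1 qp.2 (f qp.1 qp.2))

omit [NeZero t] in
lemma mem_tr {a w1 w2 : ℤ} {f : Fin t → Grid n → Fin 3} {x : Fin 3 → ℤ} :
    x ∈ tr n t a w1 w2 f ↔ ∃ q p, pt n t a w1 w2 q p (f q p) = x := by
  simp [tr]

lemma pt_mem_tr_iff {a w1 w2 : ℤ} {f : Fin t → Grid n → Fin 3} {q : Fin t} {p : Grid n}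
    {k : Fin 3} : pt n t a w1 w2 q p k ∈ tr n t a w1 w2 f ↔ f q p = k := by
  have ht : (0 : ℤ) < t := by exact_mod_cast Nat.pos_of_ne_zero (NeZero.ne t)
  rw [mem_tr]
  constructor
  · rintro ⟨q', p', h⟩
    have h1 := pt_sub_mem (t := t) a w1 w2 q' p' (f q' p')
    have h2 := pt_sub_mem (t := t) a w1 w2 q p k
    rw [h] at h1
    have h3 := Lat_sub h1 h2
    have h4 : pt n t a w1 w2 q p 0 - pt n t a w1 w2 q' p' 0 ∈ Lat n t a w1 w2 := by
      convert h3 using 1; abel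
    obtain ⟨rfl, rfl⟩ := class_unique h4
    have h5 := congrFun h 2
    rw [pt_apply_two, pt_apply_two] at h5
    have h6 : (((f q p : Fin 3) : ℕ) : ℤ) * t = ((k : ℕ) : ℤ) * t := by linarith
    have h7 := mul_right_cancel₀ ht.ne' h6
    ext
    exact_mod_cast h7
  · rintro rfl
    exact ⟨q, p, rfl⟩

lemma tr_injective (a w1 w2 : ℤ) : Function.Injective (tr n t a w1 w2) := by
  intro f g h
  funext q p
  have : pt n t a w1 w2 q p (f q p) ∈ tr n t a w1 w2 g := by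
    rw [← h]; exact pt_mem_tr_iff.2 rfl
  exact (pt_mem_tr_iff.1 this).symm

lemma tr_tiles (a w1 w2 : ℤ) (f : Fin t → Grid n → Fin 3) : Tiles 3 (tr n t a w1 w2 f) := by
  refine ⟨Lat n t a w1 w2, fun x => ?_⟩
  obtain ⟨q, p, h⟩ := class_exists (n := n) (t := t) a w1 w2 x
  have h1 := pt_sub_mem (t := t) a w1 w2 q p (f q p)
  refine ⟨(pt n t a w1 w2 q p (f q p), x - pt n t a w1 w2 q p (f q p)), ⟨?_, ?_, ?_⟩, ?_⟩
  · exact pt_mem_tr_iff.2 rfl
  · show x - pt n t a w1 w2 q p (f q p) ∈ _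
    have := Lat_sub h h1
    convert this using 1; abel
  · show _ + (x - _) = x
    abel
  · rintro ⟨s, v⟩ ⟨hs, hv, hsv⟩
    simp only at hs hv hsv
    obtain ⟨q', p', rfl⟩ := mem_tr.1 hs
    have h2 := pt_sub_mem (t := t) a w1 w2 q' p' (f q' p')
    have h3 : x - pt n t a w1 w2 q' p' 0 ∈ Lat n t a w1 w2 := by
      have := Lat_add h2 hv
      rw [← hsv]; convert this using 1; abel
    have h4 := Lat_sub h3 h
    have h5 : pt n t a w1 w2 q p 0 - pt n t a w1 w2 q' p' 0 ∈ Lat n t a w1 w2 := by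
      convert h4 using 1; abel
    obtain ⟨rfl, rfl⟩ := class_unique h5
    simp only [Prod.mk.injEq, true_and]
    rw [← hsv]; abel

omit [NeZero t] in
lemma tr_subset_cube (hn : n = 3 * t) (a w1 w2 : ℤ) (f : Fin t → Grid n → Fin 3) :
    tr n t a w1 w2 f ⊆ cube n 3 := by
  intro x hx
  obtain ⟨q, p, rfl⟩ := mem_tr.1 hx
  rw [mem_cube]
  intro i
  have hp1 := ((sig n a w1 w2)^[(f q p : ℕ)] p).1.2
  have hp2 := ((sig n a w1 w2)^[(f q p : ℕ)] p).2.2
  have hq := q.2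
  have hk := (f q p).2
  fin_cases i
  · show 1 ≤ pt n t a w1 w2 q p _ 0 ∧ pt n t a w1 w2 q p _ 0 ≤ n
    rw [pt_apply_zero]; omega
  · show 1 ≤ pt n t a w1 w2 q p _ 1 ∧ pt n t a w1 w2 q p _ 1 ≤ n
    rw [pt_apply_one]; omega
  · have : ((f q p : Fin 3) : ℕ) * t ≤ 2 * t := Nat.mul_le_mul_right _ (by omega)
    show 1 ≤ pt n t a w1 w2 q p _ 2 ∧ pt n t a w1 w2 q p _ 2 ≤ n
    rw [pt_apply_two]
    have h3 : (((f q p : Fin 3) : ℕ) : ℤ) * t ≤ 2 * t := by exact_mod_cast this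
    have h4 : (0 : ℤ) ≤ (((f q p : Fin 3) : ℕ) : ℤ) * t := by positivity
    have h5 : (n : ℤ) = 3 * t := by exact_mod_cast hn
    constructor
    · omega
    · rw [h5]; omega

end tile


section count

variable {n t : ℕ} [NeZero n] [NeZero t]

/-- parameters `(a, w1, w2 - 1)` -/
abbrev Par (n : ℕ) := Fin n × Fin n × Fin (n - 1)

/-- the shift attached to a parameter -/
def sg (j : Par n) : Grid n → Grid n := sig n (j.1 : ℕ) (j.2.1 : ℕ) ((j.2.2 : ℕ) + 1)

/-- the transversal attached to a parameter -/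
def trp (t : ℕ) (j : Par n) (f : Fin t → Grid n → Fin 3) : Finset (Fin 3 → ℤ) :=
  tr n t (j.1 : ℕ) (j.2.1 : ℕ) ((j.2.2 : ℕ) + 1) f

lemma sg_injective : Function.Injective (sg (n := n)) := by
  rintro ⟨a, w1, w2⟩ ⟨a', w1', w2'⟩ h
  have hn : (0 : ℤ) < n := npos
  have ha := a.2
  have ha' := a'.2
  have hw1 := w1.2
  have hw1' := w1'.2
  have hw2 := w2.2
  have hw2' := w2'.2
  have hnn : 0 < n := Nat.pos_of_ne_zero (NeZero.ne n)
  -- evaluate at (0,0)
  have h00 := congrFun h (⟨0, hnn⟩, ⟨0, hnn⟩)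
  have e1 : ((w2 : ℕ) : ℤ) + 1 = (w2' : ℕ) + 1 := by
    have := congrArg (fun p : Grid n => (((p.2 : ℕ)) : ℤ)) h00
    simp only [sg, sig, redP_snd, Nat.cast_zero, zero_add] at this
    rwa [Int.emod_eq_of_lt (by positivity) (by omega),
      Int.emod_eq_of_lt (by positivity) (by omega)] at this
  have e2 : ((w1 : ℕ) : ℤ) = (w1' : ℕ) := by
    have := congrArg (fun p : Grid n => (((p.1 : ℕ)) : ℤ)) h00
    simp only [sg, sig, redP_fst, Nat.cast_zero, zero_add] at this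
    rw [Int.ediv_eq_zero_of_lt (by positivity) (by omega),
      Int.ediv_eq_zero_of_lt (by positivity) (by omega)] at this
    simp only [zero_mul, sub_zero] at this
    rwa [Int.emod_eq_of_lt (by positivity) (by omega),
      Int.emod_eq_of_lt (by positivity) (by omega)] at this
  have hw2eq : w2 = w2' := by ext; omega
  have hw1eq : w1 = w1' := by ext; exact_mod_cast e2
  subst hw2eq hw1eq
  -- evaluate at (0,n-1)
  have h01 := congrFun h (⟨0, hnn⟩, ⟨n - 1, by omega⟩)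
  have hcast : ((n - 1 : ℕ) : ℤ) = n - 1 := by omega
  have e3 : (((w1 : ℕ) : ℤ) - (a : ℕ)) % n = (((w1 : ℕ) : ℤ) - (a' : ℕ)) % n := by
    have := congrArg (fun p : Grid n => (((p.1 : ℕ)) : ℤ)) h01
    simp only [sg, sig, redP_fst, Nat.cast_zero, zero_add, hcast] at this
    have hdiv : ((n : ℤ) - 1 + ((w2 : ℕ) + 1)) / n = 1 := by
      rw [Int.ediv_eq_iff_of_pos hn]
      constructor <;> omega
    rw [hdiv] at this
    simpa using this
  have e4 : ((a : ℕ) : ℤ) = (a' : ℕ) := by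
    have h5 : (n : ℤ) ∣ ((w1 : ℕ) - (a : ℕ)) - ((w1 : ℕ) - (a' : ℕ)) :=
      Int.ModEq.dvd (Int.ModEq.symm e3)
    obtain ⟨c, hc⟩ := h5
    have hc' : ((a' : ℕ) : ℤ) - (a : ℕ) = n * c := by linarith
    have h6 : c = 0 := by
      have a1 : n * c < n * 1 := by rw [← hc']; omega
      have a2 : n * (-1) < n * c := by rw [← hc']; omega
      have b1 := lt_of_mul_lt_mul_left a1 hn.le
      have b2 := lt_of_mul_lt_mul_left a2 hn.le
      omega
    rw [h6] at hc'
    linarith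
  have : a = a' := by ext; exact_mod_cast e4
  rw [this]

lemma sg_bij (j : Par n) : Function.Bijective (sg j) :=
  Finite.injective_iff_bijective.1 (sig_injective _ _ _)

/-- the key obstruction -/
lemma obstruction {j j' : Par n} {p p' : Grid n} (hpp : sg j p' = sg j' p)
    {f f' : Fin t → Grid n → Fin 3} (h : trp t j f = trp t j' f') (q : Fin t) :
    ¬ (f q p = 0 ∧ f q p' = 1) := by
  rintro ⟨h0, h1⟩
  have m0 : pt n t (j.1 : ℕ) (j.2.1 : ℕ) ((j.2.2 : ℕ) + 1) q p ((0 : Fin 3) : ℕ)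
      ∈ trp t j f := pt_mem_tr_iff.2 h0
  have m1 : pt n t (j.1 : ℕ) (j.2.1 : ℕ) ((j.2.2 : ℕ) + 1) q p' ((1 : Fin 3) : ℕ)
      ∈ trp t j f := pt_mem_tr_iff.2 h1
  have e0 : pt n t (j.1 : ℕ) (j.2.1 : ℕ) ((j.2.2 : ℕ) + 1) q p ((0 : Fin 3) : ℕ) =
      pt n t (j'.1 : ℕ) (j'.2.1 : ℕ) ((j'.2.2 : ℕ) + 1) q p ((0 : Fin 3) : ℕ) := by
    simp [pt]
  have e1 : pt n t (j.1 : ℕ) (j.2.1 : ℕ) ((j.2.2 : ℕ) + 1) q p' ((1 : Fin 3) : ℕ) =
      pt n t (j'.1 : ℕ) (j'.2.1 : ℕ) ((j'.2.2 : ℕ) + 1) q p ((1 : Fin 3) : ℕ) := by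
    have : sig n (j.1 : ℕ) (j.2.1 : ℕ) ((j.2.2 : ℕ) + 1) p' =
        sig n (j'.1 : ℕ) (j'.2.1 : ℕ) ((j'.2.2 : ℕ) + 1) p := hpp
    simp [pt, this]
  rw [e0, h] at m0
  rw [e1, h] at m1
  have r0 := pt_mem_tr_iff.1 m0
  have r1 := pt_mem_tr_iff.1 m1
  rw [r0] at r1
  exact absurd r1 (by decide)

/-- number of functions avoiding one local pattern -/
lemma card_avoid {α : Type*} [Fintype α] [DecidableEq α] {p p' : α} (h : p ≠ p') :
    9 * (Finset.univ.filter (fun g : α → Fin 3 => ¬ (g p = 0 ∧ g p' = 1))).card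
      = 8 * 3 ^ (Fintype.card α) := by
  have hbad : (Finset.univ.filter (fun g : α → Fin 3 => g p = 0 ∧ g p' = 1)).card * 9
      = 3 ^ (Fintype.card α) := by
    have e : Finset.univ.filter (fun g : α → Fin 3 => g p = 0 ∧ g p' = 1) =
        Fintype.piFinset (fun x => if x = p then ({0} : Finset (Fin 3)) else
          if x = p' then {1} else Finset.univ) := by
      ext g
      simp only [Finset.mem_filter, Finset.mem_univ, true_and, Fintype.mem_piFinset]
      constructor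
      · rintro ⟨h0, h1⟩ x
        by_cases hx : x = p
        · subst hx; simp [h0]
        · by_cases hx' : x = p'
          · subst hx'; simp [hx, h1]
          · simp [hx, hx']
      · intro hg
        have h0 := hg p
        have h1 := hg p'
        simp only [if_true, Finset.mem_singleton] at h0
        rw [if_neg (Ne.symm h), if_pos rfl, Finset.mem_singleton] at h1
        exact ⟨h0, h1⟩
    rw [e, Fintype.card_piFinset]
    have e9 : (9 : ℕ) = ∏ x : α, ((if x = p then 3 else 1) * (if x = p' then 3 else 1)) := by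
      rw [Finset.prod_mul_distrib, Finset.prod_ite_eq' Finset.univ p, Finset.prod_ite_eq' Finset.univ p']
      simp
    rw [e9, ← Finset.prod_mul_distrib, ← Finset.card_univ, ← Finset.prod_const]
    refine Finset.prod_congr rfl fun x _ => ?_
    by_cases hx : x = p
    · subst hx; simp [h]
    · by_cases hx' : x = p'
      · subst hx'; simp [hx]
      · simp [hx, hx']
  have htot : (Finset.univ.filter (fun g : α → Fin 3 => g p = 0 ∧ g p' = 1)).card +
      (Finset.univ.filter (fun g : α → Fin 3 => ¬ (g p = 0 ∧ g p' = 1))).card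
        = 3 ^ (Fintype.card α) := by
    rw [Finset.card_filter_add_card_filter_not, Finset.card_univ, Fintype.card_fun]
    simp
  omega

/-- the set of `f` whose transversal also arises from another parameter is small -/
lemma card_bad (j : Par n) :
    9 ^ t * (Finset.univ.filter (fun f : Fin t → Grid n → Fin 3 =>
      ∃ j' : Par n, j' ≠ j ∧ ∃ f', trp t j f = trp t j' f')).card
      ≤ Fintype.card (Par n) * (8 * 3 ^ (n * n)) ^ t := by
  classical
  have hex : ∀ j' : Par n, j' ≠ j → ∃ pp : Grid n × Grid n, pp.1 ≠ pp.2 ∧ sg j pp.2 = sg j' pp.1 := by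
    intro j' hj'
    have : sg j' ≠ sg j := fun h => hj' (sg_injective h)
    obtain ⟨p, hp⟩ := Function.ne_iff.1 this
    obtain ⟨p', hp'⟩ := (sg_bij j).2 (sg j' p)
    refine ⟨(p, p'), ?_, hp'⟩
    intro hpe
    have hpe' : p = p' := hpe
    rw [← hpe'] at hp'
    exact hp hp'.symm
  have hex' : ∀ j' : Par n, ∃ pp : Grid n × Grid n, j' ≠ j → pp.1 ≠ pp.2 ∧ sg j pp.2 = sg j' pp.1 := by
    intro j'
    by_cases h : j' = j
    · exact ⟨((0, 0), (0, 0)), fun h' => absurd h h'⟩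
    · obtain ⟨pp, hpp⟩ := hex j' h
      exact ⟨pp, fun _ => hpp⟩
  choose pp hpp using hex'
  have hsub : (Finset.univ.filter (fun f : Fin t → Grid n → Fin 3 =>
      ∃ j' : Par n, j' ≠ j ∧ ∃ f', trp t j f = trp t j' f')) ⊆
      (Finset.univ.filter (fun j' : Par n => j' ≠ j)).biUnion (fun j' =>
        Fintype.piFinset (fun _ : Fin t => Finset.univ.filter
          (fun g : Grid n → Fin 3 => ¬ (g (pp j').1 = 0 ∧ g (pp j').2 = 1)))) := by
    intro f hf
    simp only [Finset.mem_filter, Finset.mem_univ, true_and] at hf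
    obtain ⟨j', hj', f', h⟩ := hf
    rw [Finset.mem_biUnion]
    refine ⟨j', by simp [hj'], ?_⟩
    rw [Fintype.mem_piFinset]
    intro q
    simp only [Finset.mem_filter, Finset.mem_univ, true_and]
    exact obstruction (hpp j' hj').2 h q
  have hcard : ∀ j' ∈ (Finset.univ.filter (fun j' : Par n => j' ≠ j)),
      9 ^ t * (Fintype.piFinset (fun _ : Fin t => Finset.univ.filter
          (fun g : Grid n → Fin 3 => ¬ (g (pp j').1 = 0 ∧ g (pp j').2 = 1)))).card
        = (8 * 3 ^ (n * n)) ^ t := by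
    intro j' hj'
    rw [Finset.mem_filter] at hj'
    rw [Fintype.card_piFinset, Finset.prod_const, Finset.card_univ, Fintype.card_fin, ← mul_pow,
      card_avoid (hpp j' hj'.2).1]
    simp
  calc _ ≤ 9 ^ t * ∑ j' ∈ (Finset.univ.filter (fun j' : Par n => j' ≠ j)),
        (Fintype.piFinset (fun _ : Fin t => Finset.univ.filter
          (fun g : Grid n → Fin 3 => ¬ (g (pp j').1 = 0 ∧ g (pp j').2 = 1)))).card :=
        Nat.mul_le_mul_left _ ((Finset.card_le_card hsub).trans Finset.card_biUnion_le)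
    _ = ∑ j' ∈ (Finset.univ.filter (fun j' : Par n => j' ≠ j)), (8 * 3 ^ (n * n)) ^ t := by
        rw [Finset.mul_sum]
        exact Finset.sum_congr rfl hcard
    _ ≤ _ := by
        rw [Finset.sum_const, smul_eq_mul]
        exact Nat.mul_le_mul_right _ ((Finset.card_le_card (Finset.filter_subset _ _)).trans
          (by rw [Finset.card_univ]))


/-- The lower bound: `t_{n,3} ≥ |J| (3^{n²t} - |J| (8/9)^t 3^{n²t})` with `n = 3t`. -/
theorem tileCount_ge (hn : n = 3 * t) :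
    (Fintype.card (Par n) : ℝ) * (3 ^ (n * n * t) -
      Fintype.card (Par n) * (8 / 9 : ℝ) ^ t * 3 ^ (n * n * t)) ≤ tileCount n 3 := by
  classical
  set N := n * n * t with hN
  set bad : Par n → Finset (Fin t → Grid n → Fin 3) := fun j =>
    Finset.univ.filter (fun f => ∃ j' : Par n, j' ≠ j ∧ ∃ f', trp t j f = trp t j' f') with hbad
  have hfin : {S : Finset (Fin 3 → ℤ) | S ⊆ cube n 3 ∧ Tiles 3 S}.Finite :=
    (Set.finite_coe_iff.1 (inferInstanceAs (Finite ((cube n 3).powerset)))).subset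
      (fun S hS => Finset.mem_coe.2 (Finset.mem_powerset.2 hS.1))
  -- the union of the images of the good functions
  have hunion : ((Finset.univ : Finset (Par n)).biUnion
      (fun j => ((bad j)ᶜ).image (trp t j))).card ≤ tileCount n 3 := by
    rw [tileCount, ← Set.ncard_coe_finset]
    refine Set.ncard_le_ncard ?_ hfin
    intro S hS
    rw [Finset.mem_coe, Finset.mem_biUnion] at hS
    obtain ⟨j, -, hj⟩ := hS
    rw [Finset.mem_image] at hj
    obtain ⟨f, -, rfl⟩ := hj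
    exact ⟨tr_subset_cube hn _ _ _ f, tr_tiles _ _ _ f⟩
  have hdisj : ((Finset.univ : Finset (Par n)).biUnion
      (fun j => ((bad j)ᶜ).image (trp t j))).card = ∑ j : Par n, ((bad j)ᶜ).card := by
    rw [Finset.card_biUnion]
    · refine Finset.sum_congr rfl fun j _ => ?_
      exact Finset.card_image_of_injective _ (tr_injective _ _ _)
    · intro j _ j' _ hne
      rw [Function.onFun, Finset.disjoint_left]
      intro S hS hS'
      rw [Finset.mem_image] at hS hS'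
      obtain ⟨f, hf, rfl⟩ := hS
      obtain ⟨f', -, hf'⟩ := hS'
      rw [Finset.mem_compl] at hf
      apply hf
      rw [hbad]
      simp only [Finset.mem_filter, Finset.mem_univ, true_and]
      exact ⟨j', hne.symm, f', hf'.symm⟩
  have hcardF : Fintype.card (Fin t → Grid n → Fin 3) = 3 ^ N := by
    rw [Fintype.card_fun, Fintype.card_fun, Fintype.card_prod]
    simp only [Fintype.card_fin]
    rw [← pow_mul]
  have hcompl : ∀ j : Par n, (3 : ℝ) ^ N - Fintype.card (Par n) * (8 / 9 : ℝ) ^ t * 3 ^ N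
      ≤ (((bad j)ᶜ).card : ℝ) := by
    intro j
    have h1 : ((bad j)ᶜ).card + (bad j).card = 3 ^ N := by
      rw [← hcardF, Finset.card_compl_add_card]
    have h2 : (9 : ℝ) ^ t * ((bad j).card : ℝ) ≤
        Fintype.card (Par n) * (8 * 3 ^ (n * n)) ^ t := by
      exact_mod_cast card_bad (t := t) j
    have h3 : ((bad j).card : ℝ) ≤ Fintype.card (Par n) * (8 / 9 : ℝ) ^ t * 3 ^ N := by
      have h9 : (0 : ℝ) < 9 ^ t := by positivity
      have e : (Fintype.card (Par n) : ℝ) * (8 / 9 : ℝ) ^ t * 3 ^ N =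
          (Fintype.card (Par n) * (8 * 3 ^ (n * n)) ^ t) / 9 ^ t := by
        rw [hN, div_pow, mul_pow, ← pow_mul]
        ring
      rw [e, le_div_iff₀ h9]
      linarith
    have h1' : (((bad j)ᶜ).card : ℝ) + ((bad j).card : ℝ) = 3 ^ N := by exact_mod_cast h1
    linarith
  calc (Fintype.card (Par n) : ℝ) * (3 ^ N - Fintype.card (Par n) * (8 / 9 : ℝ) ^ t * 3 ^ N)
      = ∑ j : Par n, ((3 : ℝ) ^ N - Fintype.card (Par n) * (8 / 9 : ℝ) ^ t * 3 ^ N) := by
        rw [Finset.sum_const, Finset.card_univ, nsmul_eq_mul]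
    _ ≤ ∑ j : Par n, (((bad j)ᶜ).card : ℝ) := Finset.sum_le_sum fun j _ => hcompl j
    _ = ((∑ j : Par n, ((bad j)ᶜ).card : ℕ) : ℝ) := by push_cast; rfl
    _ ≤ tileCount n 3 := by rw [← hdisj]; exact_mod_cast hunion

end count

open Filter Asymptotics Topology in
/-- `t_{3t,3} ≥ 4 t³ · 3^{9t³}` for all large `t`. -/
theorem eventually_tileCount_ge :
    ∀ᶠ t : ℕ in atTop, (4 : ℝ) * (t : ℝ) ^ 3 * κ ^ ((3 * t) ^ 3) ≤ tileCount (3 * t) 3 := by
  have hlim : Tendsto (fun t : ℕ => (t : ℝ) ^ 3 * (8 / 9 : ℝ) ^ t) atTop (𝓝 0) :=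
    tendsto_pow_const_mul_const_pow_of_abs_lt_one 3 (by rw [abs_of_pos] <;> norm_num)
  have h1 : ∀ᶠ t : ℕ in atTop, (t : ℝ) ^ 3 * (8 / 9 : ℝ) ^ t < 1 / 81 :=
    hlim.eventually_lt_const (by norm_num)
  filter_upwards [h1, eventually_ge_atTop 1] with t ht ht1
  have : NeZero t := ⟨by omega⟩
  have : NeZero (3 * t) := ⟨by omega⟩
  have h := tileCount_ge (n := 3 * t) (t := t) rfl
  have hcard : (Fintype.card (Par (3 * t)) : ℝ) = 9 * t ^ 2 * (3 * t - 1) := by
    simp only [Par, Fintype.card_prod, Fintype.card_fin]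
    have : ((3 * t - 1 : ℕ) : ℝ) = 3 * t - 1 := by
      rw [Nat.cast_sub (by omega)]; push_cast; ring
    push_cast [this]
    ring
  have ht1' : (1 : ℝ) ≤ t := by exact_mod_cast ht1
  set M : ℝ := ((Fintype.card (Par (3 * t)) : ℕ) : ℝ) with hM
  have hM1 : M ≤ 27 * t ^ 3 := by rw [hcard]; nlinarith [sq_nonneg (t : ℝ)]
  have hM2 : 18 * (t : ℝ) ^ 3 ≤ M := by rw [hcard]; nlinarith [sq_nonneg (t : ℝ), pow_pos (lt_of_lt_of_le one_pos ht1') 2]
  have hκ : κ ^ ((3 * t) ^ 3) = 3 ^ (3 * t * (3 * t) * t) := by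
    rw [show (3 * t) ^ 3 = 3 * (3 * t * (3 * t) * t) by ring, pow_mul, κ_cube]
  rw [hκ]
  refine le_trans ?_ h
  set X : ℝ := 3 ^ (3 * t * (3 * t) * t) with hX
  have hX0 : 0 < X := by positivity
  have h89 : 0 ≤ (8 / 9 : ℝ) ^ t := by positivity
  have hMsmall : M * (8 / 9 : ℝ) ^ t ≤ 1 / 3 := by
    calc M * (8 / 9 : ℝ) ^ t ≤ 27 * t ^ 3 * (8 / 9 : ℝ) ^ t := mul_le_mul_of_nonneg_right hM1 h89
      _ ≤ 1 / 3 := by linarith
  calc 4 * (t : ℝ) ^ 3 * X ≤ (18 * (t : ℝ) ^ 3) * (X - 1 / 3 * X) := by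
        have : 0 ≤ (t : ℝ) ^ 3 * X := by positivity
        nlinarith
    _ ≤ M * (X - M * (8 / 9 : ℝ) ^ t * X) := by
        apply mul_le_mul hM2 _ _ (by linarith [show (0:ℝ) ≤ 18 * (t:ℝ)^3 by positivity])
        · have := mul_le_mul_of_nonneg_right hMsmall hX0.le
          linarith
        · linarith

end Pool.Agent.Work.MP_13da68_co
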