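import Pool.Agent.Work.MP_13da68_co.Defs

/-!
Upper bound for the number of tiles in a cube (Q1 of MP_13da68_co).
-/

open Finset

namespace Pool.Agent.Work.MP_13da68_co

lemma cube_le_three_pow (a : ℕ) : a ^ 3 ≤ 3 ^ a := by
  rcases Nat.lt_or_ge a 4 with h | h
  · interval_cases a <;> norm_num
  · induction a, h using Nat.le_induction with
    | base => norm_num
    | succ m hm ih =>
      have h1 : (m + 1) ^ 3 ≤ 3 * m ^ 3 := by nlinarith [sq_nonneg (m : ℤ), Nat.zero_le m, mul_self_nonneg (m : ℤ), mul_le_mul hm hm (Nat.zero_le _) (Nat.zero_le _)]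
      calc (m + 1) ^ 3 ≤ 3 * m ^ 3 := h1
        _ ≤ 3 * 3 ^ m := by omega
        _ = 3 ^ (m + 1) := by ring

/-- the constant `3^{1/3}` -/
noncomputable def κ : ℝ := (3 : ℝ) ^ ((1 : ℝ) / 3)

lemma κ_pos : 0 < κ := Real.rpow_pos_of_pos (by norm_num) _

lemma κ_cube : κ ^ 3 = 3 := by
  unfold κ
  rw [← Real.rpow_natCast, ← Real.rpow_mul (by norm_num)]
  norm_num

lemma le_κ_pow (a : ℕ) : (a : ℝ) ≤ κ ^ a := by
  have h : ((a : ℝ)) ^ 3 ≤ (κ ^ a) ^ 3 := by
    rw [← pow_mul, mul_comm, pow_mul, κ_cube]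
    exact_mod_cast cube_le_three_pow a
  exact le_of_pow_le_pow_left₀ (by norm_num) (pow_nonneg κ_pos.le _) h

lemma prod_le_κ_pow {ι : Type*} (s : Finset ι) (a : ι → ℕ) :
    ((∏ i ∈ s, a i : ℕ) : ℝ) ≤ κ ^ (∑ i ∈ s, a i) := by
  rw [← Finset.prod_pow_eq_pow_sum]
  push_cast
  exact Finset.prod_le_prod (fun i _ => Nat.cast_nonneg _) (fun i _ => le_κ_pow _)

lemma one_le_κ : 1 ≤ κ := by
  have := le_κ_pow 1
  simpa using this

variable {d : ℕ}

/-- the window `[-2n,-2]^d` -/
noncomputable def window (n d : ℕ) : Finset (Fin d → ℤ) :=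
  Fintype.piFinset fun _ : Fin d => Finset.Icc (-(2 * n : ℤ)) (-2)

/-- `T` is a tiling complement of `S`. -/
def IsCompl' (d : ℕ) (S : Finset (Fin d → ℤ)) (T : Set (Fin d → ℤ)) : Prop :=
  ∀ x : Fin d → ℤ, ∃! p : (Fin d → ℤ) × (Fin d → ℤ), p.1 ∈ S ∧ p.2 ∈ T ∧ p.1 + p.2 = x

lemma mem_cube {n d : ℕ} {x : Fin d → ℤ} : x ∈ cube n d ↔ ∀ i, 1 ≤ x i ∧ x i ≤ n := by
  simp [cube]

lemma mem_window {n d : ℕ} {x : Fin d → ℤ} :
    x ∈ window n d ↔ ∀ i, -(2 * n : ℤ) ≤ x i ∧ x i ≤ -2 := by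
  simp [window]

lemma card_cube (n d : ℕ) : (cube n d).card = n ^ d := by
  simp [cube, Fintype.card_piFinset]

lemma card_window_le (n d : ℕ) : (window n d).card ≤ (2 * n) ^ d := by
  simp only [window, Fintype.card_piFinset, Int.card_Icc]
  rw [Finset.prod_const, Finset.card_univ, Fintype.card_fin]
  apply Nat.pow_le_pow_left
  omega

/-- The pattern of a set `T` in the window. -/
noncomputable def pattern (n : ℕ) (T : Set (Fin d → ℤ)) : Finset (Fin d → ℤ) := by
  classical exact (window n d).filter (· ∈ T)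

lemma mem_pattern {n : ℕ} {T : Set (Fin d → ℤ)} {x : Fin d → ℤ} :
    x ∈ pattern n T ↔ x ∈ window n d ∧ x ∈ T := by
  classical
  unfold pattern
  simp

/-- size of the pattern times size of the tile is at most `(3n)^d`. -/
lemma card_pattern_mul {n : ℕ} {S : Finset (Fin d → ℤ)} (hS : S ⊆ cube n d)
    {T : Set (Fin d → ℤ)} (hT : IsCompl' d S T) :
    (pattern n T).card * S.card ≤ (3 * n) ^ d := by
  classical
  have hcard : (Fintype.piFinset fun _ : Fin d => Finset.Icc (1 - (2 * n : ℤ)) (n - 2)).card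
      ≤ (3 * n) ^ d := by
    simp only [Fintype.card_piFinset, Int.card_Icc]
    rw [Finset.prod_const, Finset.card_univ, Fintype.card_fin]
    apply Nat.pow_le_pow_left
    omega
  refine le_trans ?_ hcard
  rw [← Finset.card_product]
  refine Finset.card_le_card_of_injOn (fun p => p.2 + p.1) ?_ ?_
  · rintro ⟨t, s⟩ h
    simp only [Finset.coe_product, Set.mem_prod, Finset.mem_coe] at h
    have h1 := (mem_pattern.1 h.1).1
    have h2 := mem_cube.1 (hS h.2)
    simp only [Finset.mem_coe, Fintype.mem_piFinset, Finset.mem_Icc, Pi.add_apply]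
    intro i
    have a := mem_window.1 h1 i
    have b := h2 i
    constructor <;> omega
  · rintro ⟨t, s⟩ h ⟨t', s'⟩ h' heq
    simp only [Finset.coe_product, Set.mem_prod, Finset.mem_coe] at h h'
    simp only at heq
    obtain ⟨q, -, hq⟩ := hT (s + t)
    have e1 := hq (s, t) ⟨h.2, (mem_pattern.1 h.1).2, rfl⟩
    have e2 := hq (s', t') ⟨h'.2, (mem_pattern.1 h'.1).2, heq.symm⟩
    have := e1.trans e2.symm
    simp only [Prod.mk.injEq] at this ⊢
    exact ⟨this.2, this.1⟩

/-- the part of the cube seen from `-s` through the pattern `P`. -/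
noncomputable def piece (n : ℕ) (P : Finset (Fin d → ℤ)) (s : Fin d → ℤ) :
    Finset (Fin d → ℤ) := by
  classical exact (cube n d).filter (fun y => -s - y ∈ P)

lemma mem_piece {n : ℕ} {P : Finset (Fin d → ℤ)} {s y : Fin d → ℤ} :
    y ∈ piece n P s ↔ y ∈ cube n d ∧ -s - y ∈ P := by
  classical
  unfold piece
  simp

lemma neg_sub_mem_window {n : ℕ} {s y : Fin d → ℤ} (hs : s ∈ cube n d) (hy : y ∈ cube n d) :
    -s - y ∈ window n d := by
  rw [mem_window]
  intro i
  have a := mem_cube.1 hs i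
  have b := mem_cube.1 hy i
  simp only [Pi.sub_apply, Pi.neg_apply]
  constructor <;> omega

/-- the pieces partition the cube. -/
lemma sum_card_piece {n : ℕ} {S : Finset (Fin d → ℤ)} (hS : S ⊆ cube n d)
    {T : Set (Fin d → ℤ)} (hT : IsCompl' d S T) :
    ∑ s ∈ S, (piece n (pattern n T) s).card = n ^ d := by
  classical
  rw [← card_cube, ← Finset.card_biUnion]
  · congr 1
    ext y
    simp only [Finset.mem_biUnion, mem_piece]
    constructor
    · rintro ⟨s, -, h, -⟩; exact h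
    · intro hy
      obtain ⟨⟨s, t⟩, ⟨hs, ht, hst⟩, -⟩ := hT (-y)
      simp only at hs ht hst
      have : -s - y = t := by rw [sub_eq_add_neg, ← hst]; abel
      exact ⟨s, hs, hy, mem_pattern.2 ⟨neg_sub_mem_window (hS hs) hy, by rw [this]; exact ht⟩⟩
  · intro s hs s' hs' hne
    rw [Function.onFun, Finset.disjoint_left]
    intro y hy hy'
    apply hne
    have h1 := (mem_pattern.1 (mem_piece.1 hy).2).2
    have h2 := (mem_pattern.1 (mem_piece.1 hy').2).2
    obtain ⟨q, -, hq⟩ := hT (-y)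
    have e1 := hq (s, -s - y) ⟨hs, h1, by show s + (-s - y) = -y; abel⟩
    have e2 := hq (s', -s' - y) ⟨hs', h2, by show s' + (-s' - y) = -y; abel⟩
    have := e1.trans e2.symm
    simp only [Prod.mk.injEq] at this
    exact this.1

/-- every tile with the same pattern meets each piece exactly once. -/
lemma existsUnique_piece {n : ℕ} {S' : Finset (Fin d → ℤ)} (hS' : S' ⊆ cube n d)
    {T' : Set (Fin d → ℤ)} (hT' : IsCompl' d S' T') {s : Fin d → ℤ} (hs : s ∈ cube n d) :
    ∃! y, y ∈ S' ∧ y ∈ piece n (pattern n T') s := by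
  obtain ⟨⟨y, t⟩, ⟨hy, ht, hyt⟩, huniq⟩ := hT' (-s)
  simp only at hy ht hyt
  refine ⟨y, ⟨hy, mem_piece.2 ⟨hS' hy, mem_pattern.2 ⟨neg_sub_mem_window hs (hS' hy), ?_⟩⟩⟩, ?_⟩
  · rw [← hyt]; simpa using ht
  · rintro z ⟨hz, hz'⟩
    have h2 := (mem_pattern.1 (mem_piece.1 hz').2).2
    have := huniq (z, -s - z) ⟨hz, h2, by simp⟩
    simp only [Prod.mk.injEq] at this
    exact this.1

/-- tiles in the cube whose (chosen) complement has pattern `P`: at most `3^{v/3}`. -/
lemma card_class_le {n : ℕ} (P : Finset (Fin d → ℤ))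
    (F : Finset (Finset (Fin d → ℤ)))
    (hF : ∀ S ∈ F, S ⊆ cube n d ∧ ∃ T, IsCompl' d S T ∧ pattern n T = P) :
    (F.card : ℝ) ≤ κ ^ (n ^ d) := by
  classical
  rcases F.eq_empty_or_nonempty with rfl | ⟨S₁, hS₁⟩
  · simp only [Finset.card_empty, Nat.cast_zero]
    exact pow_nonneg κ_pos.le _
  obtain ⟨hS₁c, T₁, hT₁, hP₁⟩ := hF S₁ hS₁
  have hsub : F ⊆ (Fintype.piFinset (fun s : S₁ => piece n P s)).image
      (fun g => Finset.univ.image g) := by
    intro S hS
    obtain ⟨hSc, T, hT, hP⟩ := hF S hS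
    rw [Finset.mem_image]
    have hex : ∀ s : S₁, ∃! y, y ∈ S ∧ y ∈ piece n P s := by
      intro s
      have := existsUnique_piece hSc hT (hS₁c s.2)
      rwa [hP] at this
    choose g hg hguniq using hex
    refine ⟨g, ?_, ?_⟩
    · rw [Fintype.mem_piFinset]
      exact fun s => (hg s).2
    · ext y
      simp only [Finset.mem_image, Finset.mem_univ, true_and]
      constructor
      · rintro ⟨s, rfl⟩; exact (hg s).1
      · intro hy
        -- `y` lies in some piece
        obtain ⟨⟨s, t⟩, ⟨hs, ht, hst⟩, -⟩ := hT₁ (-y)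
        simp only at hs ht hst
        have e : -s - y = t := by rw [sub_eq_add_neg, ← hst]; abel
        have hyp : y ∈ piece n P s := by
          rw [← hP₁]
          exact mem_piece.2 ⟨hSc hy,
            mem_pattern.2 ⟨neg_sub_mem_window (hS₁c hs) (hSc hy), by rw [e]; exact ht⟩⟩
        exact ⟨⟨s, hs⟩, (hguniq ⟨s, hs⟩ y ⟨hy, hyp⟩).symm⟩
  have h1 : F.card ≤ ∏ s : S₁, (piece n P s).card := by
    refine (Finset.card_le_card hsub).trans (Finset.card_image_le.trans ?_)
    rw [Fintype.card_piFinset]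
  have h2 : ∏ s : S₁, (piece n P s).card = ∏ s ∈ S₁, (piece n P s).card :=
    Finset.prod_coe_sort S₁ (fun s => (piece n P s).card)
  have h3 : ∑ s ∈ S₁, (piece n P s).card = n ^ d := by
    rw [← hP₁]; exact sum_card_piece hS₁c hT₁
  calc (F.card : ℝ) ≤ ((∏ s ∈ S₁, (piece n P s).card : ℕ) : ℝ) := by
        rw [← h2]; exact_mod_cast h1
    _ ≤ κ ^ (∑ s ∈ S₁, (piece n P s).card) := prod_le_κ_pow _ _
    _ = κ ^ (n ^ d) := by rw [h3]

/-- weighted count of small subsets of a finite set -/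
lemma card_small_le {α : Type*} [DecidableEq α] (C : Finset α) :
    ((C.powerset.filter (fun S => 10 * S.card < C.card)).card : ℝ) ≤ κ ^ C.card := by
  set v := C.card with hv
  set r : ℝ := (8 : ℝ) ^ ((1 : ℝ) / 10) with hr
  have hr0 : 0 < r := Real.rpow_pos_of_pos (by norm_num) _
  have hr10 : r ^ 10 = 8 := by
    rw [hr, ← Real.rpow_natCast, ← Real.rpow_mul (by norm_num)]; norm_num
  have hr1 : 1 ≤ r := by
    by_contra h
    push Not at h
    have : r ^ 10 < 1 := pow_lt_one₀ hr0.le h (by norm_num)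
    rw [hr10] at this; norm_num at this
  -- each small set has weight at least one
  have hw : ∀ S ∈ C.powerset.filter (fun S => 10 * S.card < C.card),
      (1 : ℝ) ≤ (1 / 8) ^ S.card * r ^ v := by
    intro S hS
    rw [Finset.mem_filter] at hS
    have h2 : (8 : ℝ) ^ S.card ≤ r ^ v := by
      rw [← hr10, ← pow_mul]
      exact pow_le_pow_right₀ hr1 (by omega)
    rw [one_div, inv_pow, inv_mul_eq_div, le_div_iff₀ (by positivity), one_mul]
    exact h2
  have hsum : ∑ S ∈ C.powerset, ((1 : ℝ) / 8) ^ S.card = (1 + 1 / 8) ^ v := by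
    have := Finset.prod_one_add (R := ℝ) (f := fun _ : α => (1 : ℝ) / 8) C
    rw [Finset.prod_const] at this
    rw [hv, this]
    refine Finset.sum_congr rfl fun S _ => ?_
    rw [Finset.prod_const]
  have hbase : (1 + 1 / 8 : ℝ) * r ≤ κ := by
    have h30 : ((1 + 1 / 8 : ℝ) * r) ^ 30 ≤ κ ^ 30 := by
      have e1 : r ^ 30 = 8 ^ 3 := by
        calc r ^ 30 = (r ^ 10) ^ 3 := by ring
          _ = 8 ^ 3 := by rw [hr10]
      have e2 : κ ^ 30 = 3 ^ 10 := by
        calc κ ^ 30 = (κ ^ 3) ^ 10 := by ring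
          _ = 3 ^ 10 := by rw [κ_cube]
      rw [mul_pow, e1, e2]; norm_num
    exact le_of_pow_le_pow_left₀ (by norm_num) κ_pos.le h30
  calc ((C.powerset.filter (fun S => 10 * S.card < C.card)).card : ℝ)
      = ∑ S ∈ C.powerset.filter (fun S => 10 * S.card < C.card), (1 : ℝ) := by simp
    _ ≤ ∑ S ∈ C.powerset.filter (fun S => 10 * S.card < C.card), (1 / 8) ^ S.card * r ^ v :=
        Finset.sum_le_sum hw
    _ ≤ ∑ S ∈ C.powerset, (1 / 8) ^ S.card * r ^ v :=
        Finset.sum_le_sum_of_subset_of_nonneg (Finset.filter_subset _ _)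
          (fun _ _ _ => by positivity)
    _ = ((1 + 1 / 8 : ℝ) * r) ^ v := by rw [← Finset.sum_mul, hsum, mul_pow]
    _ ≤ κ ^ v := pow_le_pow_left₀ (by positivity) hbase _

/-- number of subsets of size at most `K` -/
lemma card_bounded_le {α : Type*} [DecidableEq α] (W : Finset α) (K : ℕ) :
    (W.powerset.filter (fun P => P.card ≤ K)).card ≤ (W.card + 1) ^ K := by
  have h1 : (W.powerset.filter (fun P => P.card ≤ K)).card
      ≤ ∑ i ∈ Finset.range (K + 1), (W.powersetCard i).card := by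
    refine le_trans (Finset.card_le_card ?_) Finset.card_biUnion_le
    intro P hP
    rw [Finset.mem_filter, Finset.mem_powerset] at hP
    rw [Finset.mem_biUnion]
    exact ⟨P.card, Finset.mem_range.2 (by omega), Finset.mem_powersetCard.2 ⟨hP.1, rfl⟩⟩
  refine h1.trans ?_
  rw [add_pow]
  refine Finset.sum_le_sum fun i hi => ?_
  rw [Finset.card_powersetCard, one_pow, mul_one]
  have h2 : W.card.choose i ≤ W.card ^ i := Nat.choose_le_pow W.card i
  have h3 : 1 ≤ K.choose i := Nat.choose_pos (by rw [Finset.mem_range] at hi; omega)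
  calc W.card.choose i ≤ W.card ^ i := h2
    _ = W.card ^ i * 1 := by ring
    _ ≤ W.card ^ i * K.choose i := Nat.mul_le_mul_left _ h3

/-- The explicit upper bound. -/
theorem tileCount_le (n d : ℕ) (hn : 1 ≤ n) :
    (tileCount n d : ℝ) ≤ (((2 * n) ^ d + 1) ^ (10 * 3 ^ d) + 1) * κ ^ (n ^ d) := by
  classical
  -- choose complements
  set TT : Finset (Finset (Fin d → ℤ)) := (cube n d).powerset.filter (fun S => Tiles d S) with hTT
  have hcount : tileCount n d = TT.card := by
    rw [tileCount, ← Set.ncard_coe_finset]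
    congr 1
    ext S
    simp [hTT]
  have hex : ∀ S : Finset (Fin d → ℤ), ∃ T : Set (Fin d → ℤ), Tiles d S → IsCompl' d S T := by
    intro S
    by_cases h : Tiles d S
    · obtain ⟨T, hT⟩ := h; exact ⟨T, fun _ => hT⟩
    · exact ⟨∅, fun h' => absurd h' h⟩
  choose τ hτ using hex
  set K := 10 * 3 ^ d with hK
  set PP := (window n d).powerset.filter (fun P => P.card ≤ K) with hPP
  set small := (cube n d).powerset.filter (fun S => 10 * S.card < (cube n d).card) with hsmall
  set cls : Finset (Fin d → ℤ) → Finset (Finset (Fin d → ℤ)) :=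
    fun P => TT.filter (fun S => pattern n (τ S) = P) with hcls
  have hsub : TT ⊆ small ∪ PP.biUnion cls := by
    intro S hS
    rw [Finset.mem_union]
    have hS' := hS
    rw [hTT, Finset.mem_filter, Finset.mem_powerset] at hS'
    by_cases hsm : 10 * S.card < (cube n d).card
    · left
      rw [hsmall, Finset.mem_filter, Finset.mem_powerset]
      exact ⟨hS'.1, hsm⟩
    · right
      rw [Finset.mem_biUnion]
      refine ⟨pattern n (τ S), ?_, ?_⟩
      · rw [hPP, Finset.mem_filter, Finset.mem_powerset]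
        refine ⟨fun x hx => (mem_pattern.1 hx).1, ?_⟩
        have h1 := card_pattern_mul hS'.1 (hτ S hS'.2)
        rw [card_cube] at hsm
        push Not at hsm
        by_contra hlt
        push Not at hlt
        have hpos : 0 < n ^ d := pow_pos (by omega) _
        have h2 : (K + 1) * n ^ d ≤ 10 * ((pattern n (τ S)).card * S.card) := by
          calc (K + 1) * n ^ d ≤ (pattern n (τ S)).card * (10 * S.card) :=
                Nat.mul_le_mul hlt hsm
            _ = _ := by ring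
        have h3 : (3 * n) ^ d = 3 ^ d * n ^ d := mul_pow _ _ _
        have h4 : 10 * ((pattern n (τ S)).card * S.card) ≤ 10 * (3 ^ d * n ^ d) := by
          rw [← h3]; exact Nat.mul_le_mul_left _ h1
        have h5 : (K + 1) * n ^ d ≤ K * n ^ d := by
          calc (K + 1) * n ^ d ≤ 10 * (3 ^ d * n ^ d) := h2.trans h4
            _ = K * n ^ d := by rw [hK]; ring
        nlinarith
      · rw [hcls]
        simp only [Finset.mem_filter, and_true]
        exact hS
  have hcls_le : ∀ P ∈ PP, ((cls P).card : ℝ) ≤ κ ^ (n ^ d) := by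
    intro P _
    refine card_class_le P (cls P) ?_
    intro S hS
    rw [hcls] at hS
    simp only [Finset.mem_filter, hTT, Finset.mem_powerset] at hS
    exact ⟨hS.1.1, τ S, hτ S hS.1.2, hS.2⟩
  have hPPcard : PP.card ≤ ((2 * n) ^ d + 1) ^ K := by
    refine (card_bounded_le (window n d) K).trans ?_
    exact Nat.pow_le_pow_left (Nat.add_le_add_right (card_window_le n d) 1) _
  have hsm_le : (small.card : ℝ) ≤ κ ^ (n ^ d) := by
    have h := card_small_le (cube n d)
    have e : κ ^ (cube n d).card = κ ^ (n ^ d) := by rw [card_cube]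
    rw [e] at h
    exact h
  have hfin : (TT.card : ℝ) ≤ small.card + ∑ P ∈ PP, ((cls P).card : ℝ) := by
    have h1 : TT.card ≤ small.card + ∑ P ∈ PP, (cls P).card :=
      (Finset.card_le_card hsub).trans ((Finset.card_union_le _ _).trans
        (Nat.add_le_add_left Finset.card_biUnion_le _))
    exact_mod_cast h1
  rw [hcount]
  have hκ : 0 ≤ κ ^ (n ^ d) := pow_nonneg κ_pos.le _
  calc (TT.card : ℝ) ≤ small.card + ∑ P ∈ PP, ((cls P).card : ℝ) := hfin
    _ ≤ κ ^ (n ^ d) + ∑ P ∈ PP, κ ^ (n ^ d) := add_le_add hsm_le (Finset.sum_le_sum hcls_le)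
    _ = (PP.card + 1) * κ ^ (n ^ d) := by rw [Finset.sum_const, nsmul_eq_mul]; ring
    _ ≤ (((2 * n) ^ d + 1) ^ K + 1) * κ ^ (n ^ d) := by
        refine mul_le_mul_of_nonneg_right ?_ hκ
        have : (PP.card : ℝ) ≤ (((2 * n) ^ d + 1) ^ K : ℕ) := by exact_mod_cast hPPcard
        push_cast at this
        linarith


/-- Explicit form for all `n ≥ 1`. -/
theorem tileCount_le' (n d : ℕ) (hn : 1 ≤ n) :
    (tileCount n d : ℝ) ≤
      ((2 ^ d + 1) ^ (10 * 3 ^ d) + 1) * ((n : ℝ) ^ (10 * d * 3 ^ d) * κ ^ (n ^ d)) := by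
  refine (tileCount_le n d hn).trans ?_
  rw [← mul_assoc]
  refine mul_le_mul_of_nonneg_right ?_ (pow_nonneg κ_pos.le _)
  have hn' : (1 : ℝ) ≤ n := by exact_mod_cast hn
  have h1 : (2 * (n : ℝ)) ^ d + 1 ≤ (2 ^ d + 1) * (n : ℝ) ^ d := by
    have : (1 : ℝ) ≤ (n : ℝ) ^ d := one_le_pow₀ hn'
    rw [mul_pow]; nlinarith
  have h2 : ((2 * (n : ℝ)) ^ d + 1) ^ (10 * 3 ^ d) ≤
      (2 ^ d + 1) ^ (10 * 3 ^ d) * (n : ℝ) ^ (10 * d * 3 ^ d) := by
    calc ((2 * (n : ℝ)) ^ d + 1) ^ (10 * 3 ^ d) ≤ ((2 ^ d + 1) * (n : ℝ) ^ d) ^ (10 * 3 ^ d) :=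
          pow_le_pow_left₀ (by positivity) h1 _
      _ = _ := by rw [mul_pow, ← pow_mul]; congr 2; ring
  have h3 : (1 : ℝ) ≤ (n : ℝ) ^ (10 * d * 3 ^ d) := one_le_pow₀ hn'
  calc ((2 * (n : ℝ)) ^ d + 1) ^ (10 * 3 ^ d) + 1
      ≤ (2 ^ d + 1) ^ (10 * 3 ^ d) * (n : ℝ) ^ (10 * d * 3 ^ d) + (n : ℝ) ^ (10 * d * 3 ^ d) :=
        add_le_add h2 h3
    _ = _ := by ring

end Pool.Agent.Work.MP_13da68_co
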